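import Pool.Agent.Helper12.BM.Base
import Pool.Agent.N375.AV.D

/-!
# Families of curves on powers of an elliptic curve: the Mordell-Weil sieve over all extensions of bounded degree, for all members of height near the values of compositions of additive functions

`E : y² = x³ + a x + b` is an elliptic curve over a number field `K` (any rank, with or without complex
multiplication) and `X` a closed subset of `E ^ r × ℙ ^ n` over `K`, given by multihomogeneous equations: a family of
closed subsets `X_y ⊆ E ^ r` with parameter space `ℙ ^ n`. Suppose that for all `1 ≤ m ≤ M` every complex point `S` of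
`E ^ r` is a sum of `m` points of `X_y` for at most `D` of the `y`. The member `X_y`, `y ∈ ℙ ^ n (K)`, is called
`Obstructed` if, for ALL extensions `F` of `K` of degree at most `M`, `K` included, the closure of the group
`E(F) ^ r` in the product of the `E(F_w) ^ r` (over the finite places `w` of `F` outside a fixed finite set) does not
meet the product of the `X_y(F_w)`; then the Mordell-Weil sieve, that is finite descent, explains over all these fields
at once that `X_y` has no `F`-rational points, as Stoll's conjecture says.

Let `f = f_1 ∘ ⋯ ∘ f_k` be a composition of functions dominated by the largest prime factor (`PD`), for example additive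
functions `f_i` with `f_i (q^j) ≤ C q^j` at the prime powers, with different values at different large primes (the sum of
the prime factors), the largest prime factor itself, and Kempner's function. Let `G` have steps bounded below by a
positive constant and growth at most `v ^ e`, for example `G v = v`, and `0 ≤ κ < 1`. For all `u ≤ N` but
`C N exp (- c (log N)^(1 / (k + 1)))`, ALL members `X_y` of height `H(y)` with `|H(y) - G (f u)| ≤ f(u) ^ κ` are
`Obstructed` (if `K = ℚ` and `G v = v` these are more than `f(u) ^ n` members).

The starting theorems `ClosuresInFamilies` and `FamiliesOverExtensions` count the members which are not `Obstructed`: at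
most `C B ^ ε` of height up to `B`. The values of `f` are taken with very large multiplicities and `f(u)` is in general
much smaller than `u`, so that the theorem does not follow from this number alone.

Proof: the starting library `N375/AV` (preimages of thin sets) and the starting theorems.
-/

set_option autoImplicit false

namespace Pool.Agent.Results.MP_308fa9_nt.AdditiveValues

open MvPolynomial NumberField

open scoped LinearAlgebra.Projectivization

open Pool.Agent.Results.MP_308fa9_nt.FamiliesOverExtensions (curve MultiHom IsSum)
open Pool.Agent.Helper12.BM (Obstructed count)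
open Pool.Agent.N733.TG (Expanding expanding_pow)
open Pool.Agent.N375.AV (PD comp good pd_additive pd_largest pd_kempner)

/-- **The Mordell-Weil sieve over all extensions of bounded degree, for all members of height near the values of
compositions of additive functions.** Let `E : y² = x³ + a x + b` be an elliptic curve over the number field `K` and
`X ⊆ E ^ r × ℙ ^ n`, given by the multihomogeneous `G_i`, a family of closed subsets `X_y` of `E ^ r`, such that for
`1 ≤ m ≤ M` every complex point of `E ^ r` is a sum of `m` points of `X_y` for at most `D` of the `y`. For all compositions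
`comp fs` of `k` functions dominated by the largest prime factor, all `G` with steps `≥ a > 0` and growth at most `v ^ e`
and `0 ≤ κ < 1`: for all `u ≤ N` but `C N exp (- c (log N)^(1 / (k + 1)))`, ALL `y ∈ ℙ ^ n (K)` with
`|H(y) - G (comp fs u)| ≤ (comp fs u) ^ κ` are `Obstructed`: for ALL extensions `F` of `K` of degree at most `M` no point of
the product of the `X_y(F_w)`, `w` outside `T`, is in the closure of the group `E(F) ^ r`. The additive functions with
`f (q^j) ≤ C q^j` which are injective at the large primes, the largest prime factor and Kempner's function are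
examples of such functions, and `α v ^ e` with `α > 0`, `e ≥ 1` is an example of `G`. -/
theorem result :
    (∀ (K : Type) [Field K] [NumberField K] (a b : 𝓞 K), 4 * a ^ 3 + 27 * b ^ 2 ≠ 0 → ∀ (r n q : ℕ)
      (E : Fin q → MvPolynomial ((Fin r × Fin 3) ⊕ Fin (n + 1)) (𝓞 K)) (d : Fin q → Fin r → ℕ) (deg : Fin q → ℕ),
      (∀ i, MultiHom (E i) (d i) (deg i)) → ∀ (σ : K →+* ℂ) (M D : ℕ), 1 ≤ M →
      (∀ m, 1 ≤ m → m ≤ M → ∀ S : Fin r → (curve (σ a) (σ b)).toAffine.Point,
        {y : ℙ ℂ (Fin (n + 1) → ℂ) | IsSum σ a b E m S y.rep}.encard ≤ D) →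
      ∀ T : Finset ℕ, (∀ p ∈ T, p.Prime) → ∀ fs : List (ℕ → ℕ), (∀ f ∈ fs, PD f) →
      ∀ (G : ℕ → ℝ) (e κ : ℝ), Expanding G e → 0 ≤ κ → κ < 1 →
      ∃ c C : ℝ, 0 < c ∧ ∀ N : ℕ, 1 ≤ N →
      ({u : ℕ | 1 ≤ u ∧ u ≤ N ∧ ¬ ∀ y : ℙ K (Fin (n + 1) → K),
          |y.mulHeight - G (comp fs u)| ≤ (comp fs u : ℝ) ^ κ → Obstructed a b E T M y}.ncard : ℝ) ≤
        C * N * Real.exp (-(c * Real.log N ^ ((1 : ℝ) / (fs.length + 1))))) ∧
    (∀ f : ℕ → ℕ, (∀ a b : ℕ, Nat.Coprime a b → f (a * b) = f a + f b) →
      (∃ C : ℕ, ∀ q j : ℕ, q.Prime → 1 ≤ j → f (q ^ j) ≤ C * q ^ j) →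
      (∃ P : ℕ, ∀ p q : ℕ, p.Prime → q.Prime → P ≤ p → P ≤ q → f p = f q → p = q) → PD f) ∧
    (PD (fun n => n.primeFactors.sup id) ∧ PD (fun n => sInf {k : ℕ | n ∣ k.factorial})) ∧
    ∀ α e : ℝ, 0 < α → 1 ≤ e → Expanding (fun v => α * (v : ℝ) ^ e) e := by
  refine ⟨?_, fun f h2 h3 h4 => pd_additive h2 h3 h4, ⟨pd_largest, pd_kempner⟩,
    fun α e hα he => expanding_pow hα he⟩
  intro K _ _ a b hE r n q E d deg hd σ M D hM hX T hT fs hfs G e κ hG hκ h1
  obtain ⟨c, C, hc, hC⟩ := good (fun _ : ℙ K (Fin (n + 1) → K) => True)
    (fun y : ℙ K (Fin (n + 1) → K) => Obstructed a b E T M y) (fun y => y.mulHeight) fs hfs hG (s := 0) (κ := κ)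
    le_rfl hκ (by rw [mul_zero, zero_add]; exact h1) (fun ε hε => by
      obtain ⟨C, hC⟩ := count a b hE E d deg hd σ M D hM hX T hT ε hε
      refine ⟨C, fun B hB => ?_⟩
      rw [zero_add]
      simp only [true_and]
      exact hC B hB)
  refine ⟨c, C, hc, fun N hN => le_trans (le_of_eq ?_) (hC N hN)⟩
  simp only [true_imp_iff, forall_true_left]

end Pool.Agent.Results.MP_308fa9_nt.AdditiveValues
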