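import Pool.Agent.Helper12.BM.Base
import Pool.Agent.N790.CM.C

/-!
# Families of curves on powers of an elliptic curve: the Mordell-Weil sieve over all extensions of bounded degree, for all members of height near all multiples of Carmichael's function of almost all integers

`E : y² = x³ + a x + b` is an elliptic curve over a number field `K` (any rank, with or without complex
multiplication) and `X` a closed subset of `E ^ r × ℙ ^ n` over `K`, given by multihomogeneous equations: a family of
closed subsets `X_y ⊆ E ^ r` with parameter space `ℙ ^ n`. Suppose that for all `1 ≤ m ≤ M` every complex point `S` of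
`E ^ r` is a sum of `m` points of `X_y` for at most `D` of the `y`. The member `X_y`, `y ∈ ℙ ^ n (K)`, is called
`Obstructed` if, for ALL extensions `F` of `K` of degree at most `M`, `K` included, the closure of the group
`E(F) ^ r` in the product of the `E(F_w) ^ r` (over the finite places `w` of `F` outside a fixed finite set) does not
meet the product of the `X_y(F_w)`; then the Mordell-Weil sieve, that is finite descent, explains over all these fields
at once that `X_y` has no `F`-rational points, as Stoll's conjecture says.

Let `G` have steps bounded below by a positive constant and growth at most `v ^ e`, for example `G v = v`, `B ≥ 1` and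
`0 ≤ κ < 1 / B`. For all `u ≤ N` but `N / (log N) ^ A` and ALL multiples `w ≤ N ^ B` of Carmichael's function `λ(u)` (for
example Euler's function `φ(u)`), ALL members `X_y` of height `H(y)` with `|H(y) - G(w)| ≤ w ^ κ` are `Obstructed`. The
same is true for the common multiples `w` of the numbers `f p`, `p` the large primes which divide `u` exactly once, if
`f` takes each positive value at boundedly many primes, for example `f p = |P(p)|` for a nonconstant polynomial `P`.

The starting theorems `ClosuresInFamilies` and `FamiliesOverExtensions` count the members which are not `Obstructed`: at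
most `C B ^ ε` of height up to `B`. Some `w` are multiples of `λ(u)` for more than `N ^ (1 - δ)` of the `u ≤ N`, so that
the theorem does not follow from this number alone.

Proof: the starting library `N790/CM` (common multiples) and the starting theorems.
-/

set_option autoImplicit false

namespace Pool.Agent.Results.MP_308fa9_nt.CarmichaelMultiples

open MvPolynomial NumberField

open scoped LinearAlgebra.Projectivization

open Pool.Agent.Results.MP_308fa9_nt.FamiliesOverExtensions (curve MultiHom IsSum)
open Pool.Agent.Helper12.BM (Obstructed count)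
open Pool.Agent.N733.TG (Expanding expanding_pow)
open Pool.Agent.N790.CM (FewTimes Carries OnMultiples OnCarmichael fewTimes_pred fewTimes_poly keep_good)

/-- **The Mordell-Weil sieve over all extensions of bounded degree, for all members of height near all multiples of
Carmichael's function.** Let `E : y² = x³ + a x + b` be an elliptic curve over the number field `K` and
`X ⊆ E ^ r × ℙ ^ n`, given by the multihomogeneous `G_i`, a family of closed subsets `X_y` of `E ^ r`, such that for
`1 ≤ m ≤ M` every complex point of `E ^ r` is a sum of `m` points of `X_y` for at most `D` of the `y`. Let `G` have steps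
`≥ a > 0` and growth at most `v ^ e`, `κ ≥ 0`, `B ≥ 1`, `B κ < 1`. For all `u ≤ N` but `N / (log N) ^ A` and ALL multiples
`w ≤ N ^ B` of `λ(u)`, and also for all common multiples `w ≤ N ^ B` of the numbers `f p`, `p > exp (√(log N))` a prime which
divides `u` exactly once, `f` any function which takes each positive value at boundedly many primes, ALL
`y ∈ ℙ ^ n (K)` with `|H(y) - G w| ≤ w ^ κ` are `Obstructed`: for ALL extensions `F` of `K` of degree at most `M` no point
of the product of the `X_y(F_w)`, `w` outside `T`, is in the closure of the group `E(F) ^ r`. Examples of `f` are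
`p - 1` and `|P(p)|`, `P` a nonconstant polynomial, and `α v ^ e` with `α > 0`, `e ≥ 1` is an example of `G`. -/
theorem result :
    (∀ (K : Type) [Field K] [NumberField K] (a b : 𝓞 K), 4 * a ^ 3 + 27 * b ^ 2 ≠ 0 → ∀ (r n q : ℕ)
      (E : Fin q → MvPolynomial ((Fin r × Fin 3) ⊕ Fin (n + 1)) (𝓞 K)) (d : Fin q → Fin r → ℕ) (deg : Fin q → ℕ),
      (∀ i, MultiHom (E i) (d i) (deg i)) → ∀ (σ : K →+* ℂ) (M D : ℕ), 1 ≤ M →
      (∀ m, 1 ≤ m → m ≤ M → ∀ S : Fin r → (curve (σ a) (σ b)).toAffine.Point,
        {y : ℙ ℂ (Fin (n + 1) → ℂ) | IsSum σ a b E m S y.rep}.encard ≤ D) →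
      ∀ T : Finset ℕ, (∀ p ∈ T, p.Prime) →
      ∀ (G : ℕ → ℝ) (e κ B : ℝ), Expanding G e → 0 ≤ κ → 1 ≤ B → B * κ < 1 →
      OnMultiples B (fun w => ∀ y : ℙ K (Fin (n + 1) → K), |y.mulHeight - G w| ≤ (w : ℝ) ^ κ →
        Obstructed a b E T M y) ∧
      OnCarmichael B (fun w => ∀ y : ℙ K (Fin (n + 1) → K), |y.mulHeight - G w| ≤ (w : ℝ) ^ κ →
        Obstructed a b E T M y)) ∧
    (FewTimes (fun p => p - 1) 1 ∧
      (∀ P : Polynomial ℤ, 1 ≤ P.natDegree →
        FewTimes (fun p => (P.eval (p : ℤ)).natAbs) (2 * P.natDegree)) ∧
      ∀ α e : ℝ, 0 < α → 1 ≤ e → Expanding (fun v => α * (v : ℝ) ^ e) e) := by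
  refine ⟨?_, fewTimes_pred, fun P hP => fewTimes_poly P hP, fun α e hα he => expanding_pow hα he⟩
  intro K _ _ a b hE r n q E d deg hd σ M D hM hX T hT G e κ B hG hκ hB h1
  have key : OnMultiples B (fun w => ∀ y : ℙ K (Fin (n + 1) → K), |y.mulHeight - G w| ≤ (w : ℝ) ^ κ →
      Obstructed a b E T M y) := by
    refine (keep_good (fun _ : ℙ K (Fin (n + 1) → K) => True)
      (fun y : ℙ K (Fin (n + 1) → K) => Obstructed a b E T M y) (fun y => y.mulHeight) hG (s := 0) (κ := κ) (B := B)
      le_rfl hκ hB (by rw [mul_zero, zero_add]; exact h1) (fun ε hε => ?_)).mono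
      fun w _ hw y hy => hw y trivial hy
    obtain ⟨C, hC⟩ := count a b hE E d deg hd σ M D hM hX T hT ε hε
    refine ⟨C, fun Y hY => ?_⟩
    rw [zero_add]
    simp only [true_and]
    exact hC Y hY
  exact ⟨key, key.carmichael⟩

end Pool.Agent.Results.MP_308fa9_nt.CarmichaelMultiples
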