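import Pool.Agent.Helper94.BC.Opt
import Pool.Agent.Helper94.SM.Base

set_option autoImplicit false

/-!
# Stoll's conjecture, by finite descent, for ALL large members of sequences of curves

The setting is that of the starting results `OverNumberFields` (helper890) and `ThinRandomCurves` (helper54), whose
definitions are used: `A = E_1 × … × E_r` is a product of elliptic curves over `ℚ` with complex multiplication (of
arbitrary rank, no hypothesis on Tate-Shafarevich groups; what is used is supersingular reduction at the primes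
`p ≡ -1` modulo some `M`), `K` a number field, `𝒯 ⊆ A × ℙᵐ` a closed subvariety over `𝓞 K` with fibres of dimension at
most `κ` over `A`, and `X_c = 𝒯 ∩ {F_1 = … = F_s = 0}`, `s ≤ r + κ`, where `F_j` are forms of multidegree `(d_j; e_j)` with
the vector `c` of coefficients in `𝓞 K`; `D ≥ 1`, `d_ji, e_j ≥ D - 1` and `D dim X_c < r / 2`, `dim X_c = r + κ - s` (for
curves `r > 2 D`).

In the starting results there are always exceptional `c`: in boxes, in thin sequences of generalised polynomials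
and along random orbits.  Here there are none.  Let `n` be the number of the integral coordinates of `c`, and let
`G(t) → ∞` and `W(t) ≥ 1` be sequences such that the sum of `W(t) ^ n / G(t) ^ β` converges for some
`β < (r / 2 - D dim X_c) / 2`.  Let the coordinates of `c` be ANY integers within `W(t)` of

* `ξ_i g_i(t) + h_i(t)` for any real sequences with `g_i(t) ≥ G(t)` (`2 ^ t`, `t !`, `2 ^ (2 ^ t)`, in any combination; if
  `r / 2 - D dim X_c > 2` then `g_i(t) = t` is possible: thickened lines) and any real sequences `h_i`, or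
* `ξ_i ^ g_i(t) + h_i(t)` with natural numbers `g_i(t)`, `b ^ g_i(t) ≥ G(t)`, `ξ_i > b > 1`, or
* `F_i(t)(ξ_i)` for convex functions with slopes at least `G(t)`.

**Theorem.** There is a sequence of squarefree levels `L(t)` with `log L(t) ≤ (log G(t)) ^ δ` (for any given `δ > 0`), which
does not depend on `ξ`, such that for almost all real vectors `ξ`, for ALL `t ≥ t₀(ξ)` and ALL vectors in the windows:
`X_c` has no point over `F` and its `L(t)`-Selmer set over `F` is empty, for ALL number fields `F` containing `K` with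
`[F : ℚ] ≤ D`.

By the theory of descent the projection of the Brauer-Manin set of `X_c` over `F` to the finite places is empty if a
Selmer set is.  So all the smooth curves `X_c` in these windows satisfy Q1 over all these fields.

Method: for a fixed `t` the vectors of the integer parts, as functions of `ξ`, are equidistributed modulo all integers
`q ≤ G(t) ^ θ`, `θ < 1 / 2`, with a power saving; the theorem of the project TQ of helper54 on well distributed families, with
one level for all families, bounds the measure of the set of the `ξ` with a bad vector in the window by a constant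
times `W(t) ^ n G(t) ^ (-β)`; by Borel-Cantelli almost no `ξ` is bad for infinitely many `t`.
-/

namespace Pool.Agent.Results.MP_308fa9_nt.EveryLargeIndex

open Filter Topology MeasureTheory NumberField MvPolynomial
open Pool.Agent.Helper94.SM (vect EmptyAt)
open Pool.Agent.Results.MP_308fa9_nt.ThinRandomCurves (Coeffs Multihomogeneous FewPoints Supersingular)

/-- `F` is continuous, convex on `[u, v]`, and its slopes there are at least `G`. -/
def Steep (u v G : ℝ) (F : ℝ → ℝ) : Prop :=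
  Continuous F ∧ ConvexOn ℝ (Set.Icc u v) F ∧
    ∀ x y, u ≤ x → x ≤ y → y ≤ v → G * (y - x) ≤ F y - F x

/-- For almost all `ξ` and all large `t` the property `P t z` holds for all integer vectors `z` within
`W t` of the vector with the coordinates (1) `F_i(t) (ξ_i)` for convex functions with slopes at
least `G(t)`, (2) `ξ_i g_i(t) + h_i(t)` for all real sequences `g_i` with `g_i(t) ≥ G(t)` and all real
sequences `h_i`, (3) `ξ_i ^ g_i(t) + h_i(t)`, `ξ_i > b`, for all sequences `g_i` of natural numbers with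
`b ^ g_i(t) ≥ G(t)` and all real sequences `h_i`. -/
def Every {ι : Type} [Fintype ι] (G W : ℕ → ℝ) (P : ℕ → (ι → ℤ) → Prop) : Prop :=
  (∀ (u v : ι → ℝ) (F : ι → ℕ → ℝ → ℝ), (∀ i, ∀ᶠ t in atTop, Steep (u i) (v i) (G t) (F i t)) →
    ∀ᵐ ξ : ι → ℝ, (∀ i, ξ i ∈ Set.Ioc (u i) (v i)) → ∀ᶠ t in atTop, ∀ z : ι → ℤ,
      (∀ i, |(z i : ℝ) - F i t (ξ i)| ≤ W t) → P t z) ∧
  (∀ g h : ι → ℕ → ℝ, (∀ i, ∀ᶠ t in atTop, G t ≤ g i t) →
    ∀ᵐ ξ : ι → ℝ, ∀ᶠ t in atTop, ∀ z : ι → ℤ,
      (∀ i, |(z i : ℝ) - (ξ i * g i t + h i t)| ≤ W t) → P t z) ∧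
  (∀ (b : ℝ) (g : ι → ℕ → ℕ) (h : ι → ℕ → ℝ), 1 < b → (∀ i, ∀ᶠ t in atTop, G t ≤ b ^ g i t) →
    ∀ᵐ ξ : ι → ℝ, (∀ i, b < ξ i) → ∀ᶠ t in atTop, ∀ z : ι → ℤ,
      (∀ i, |(z i : ℝ) - (ξ i ^ g i t + h i t)| ≤ W t) → P t z)

/-- **All the members `X_c` with large index, for all vectors of coefficients in windows, have empty Selmer sets of
one small level over all number fields `F` with `[F : ℚ] ≤ D`, unconditionally.** -/
theorem result (K : Type) [Field K] [NumberField K] (n₀ : ℕ)
    (ω : Module.Basis (Fin n₀) ℤ (𝓞 K)) (r : ℕ) (a b : Fin r → ℤ)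
    (hE : ∀ i, Supersingular (a i) (b i))
    (κ s D : ℕ) (hD : 1 ≤ D) (hs : s ≤ r + κ) (hr : 2 * D * (r + κ - s) < r)
    (d : Fin s → Fin r → ℕ) (e : Fin s → ℕ) (hd : ∀ j i, D ≤ d j i + 1) (he : ∀ j, D ≤ e j + 1)
    (m q : ℕ) (Φ : Fin q → MvPolynomial ((Fin r × Fin 3) ⊕ Fin (m + 1)) (𝓞 K))
    (d' : Fin q → Fin r → ℕ) (e' : Fin q → ℕ) (hΦ : ∀ l, Multihomogeneous (Φ l) (d' l) (e' l))
    (B : ℝ) (hB : FewPoints a b Φ κ B D)
    (β δ : ℝ) (hβ : 0 < β) (hβr : 4 * β + 2 * D * ((r + κ - s : ℕ) : ℝ) < r) (hδ : 0 < δ)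
    (G W : ℕ → ℝ) (hG : Tendsto G atTop atTop) (hW : ∀ t, 1 ≤ W t)
    (hGW : Summable fun t => W t ^ Fintype.card (Coeffs m d e × Fin n₀) * G t ^ (-β)) :
    ∃ L : ℕ → ℕ,
      (∀ᶠ t in atTop, 1 ≤ L t ∧ Squarefree (L t) ∧ Real.log (L t) ≤ Real.log (G t) ^ δ) ∧
      Every G W fun t z => EmptyAt a b Φ D (L t) (vect (J := Coeffs m d e) ω z) := by
  classical
  obtain ⟨τ, hτ1, hτ2⟩ : ∃ τ : ℝ, 2 * β < τ ∧ 2 * τ + 2 * D * ((r + κ - s : ℕ) : ℝ) < r := by
    refine ⟨2 * β + (r - (4 * β + 2 * D * ((r + κ - s : ℕ) : ℝ))) / 4, ?_, ?_⟩ <;> linarith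
  obtain ⟨H₀, hH₀, hH⟩ := Pool.Agent.Helper94.SM.engine K ω r a b hE κ s D hD hs hr d e hd he m q Φ d' e'
    hΦ B hB τ hτ2 δ hδ
  obtain ⟨L, hL, h1, h2, h3⟩ := Pool.Agent.Helper94.BC.everyL (τ := τ) (by linarith) (H₀ := H₀)
    (Q := fun H L => 1 ≤ L ∧ Squarefree L ∧ Real.log L ≤ Real.log H ^ δ)
    (Bad := fun L z => ¬ EmptyAt a b Φ D L (vect (J := Coeffs m d e) ω z)) (fun H hHH => by
      obtain ⟨L, g1, g2⟩ := hH H hHH
      refine ⟨L, g1, fun S x hw => ?_⟩
      convert g2 S x hw) hβ hτ1 G W hG hW hGW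
  refine ⟨L, ?_, fun u v F hF => ?_, fun g h hg => ?_, fun b' g h hb hg => ?_⟩
  · filter_upwards [hL] with t ⟨H, hH1, hH2, hH3, hH4, hH5, hH6⟩
    refine ⟨hH4, hH5, hH6.trans ?_⟩
    have h1 : (1 : ℝ) ≤ H := by exact_mod_cast hH2
    exact Real.rpow_le_rpow (Real.log_nonneg h1) (Real.log_le_log (by linarith) hH3) hδ.le
  · filter_upwards [h1 u v F fun i => by
      filter_upwards [hF i] with t ht
      exact ⟨ht.1, ht.2.1, ht.2.2⟩] with ξ hξ hξ2
    filter_upwards [hξ hξ2] with t ht z hz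
    exact not_not.1 (ht z hz)
  · filter_upwards [h2 g h hg] with ξ hξ
    filter_upwards [hξ] with t ht z hz
    exact not_not.1 (ht z hz)
  · filter_upwards [h3 b' g h hb hg] with ξ hξ hξ2
    filter_upwards [hξ hξ2] with t ht z hz
    exact not_not.1 (ht z hz)

end Pool.Agent.Results.MP_308fa9_nt.EveryLargeIndex
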