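import Pool.Agent.Helper94.EN.Lev
import Pool.Agent.Helper94.EN.Three
import Pool.Agent.Helper94.SM.Base

set_option autoImplicit false

/-!
# Stoll's conjecture, by finite descent, along almost all sequences of curves

The setting is that of the starting results `OverNumberFields` (helper890) and `ThinRandomCurves` (helper54), whose
definitions are used: `A = E_1 × … × E_r` is a product of elliptic curves over `ℚ` with complex multiplication (of
arbitrary rank, no hypothesis on Tate-Shafarevich groups; what is used is supersingular reduction at the primes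
`p ≡ -1` modulo some `M`), `K` a number field, `𝒯 ⊆ A × ℙᵐ` a closed subvariety over `𝓞 K` with fibres of dimension at
most `κ` over `A`, and `X_c = 𝒯 ∩ {F_1 = … = F_s = 0}`, `s ≤ r + κ`, where `F_j` are forms of multidegree `(d_j; e_j)` with
the vector `c` of coefficients in `𝓞 K`; `D ≥ 1`, `d_ji, e_j ≥ D - 1` and `D dim X_c < r / 2`, `dim X_c = r + κ - s` (for
curves `r > 2 D`).

In `ThinRandomCurves` the coordinates of `c` are the integer parts of generalised polynomials with distinct and not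
integral leading exponents, in an integer or a prime `t`.  Here they are the integer parts `⌊x_i(t)⌋` of any sequences, up to a
set of measure zero:

* `x_i(t) = ξ_i g_i(t) + h_i(t)` for any real sequences with `g_i(t + 1) - g_i(t) ≥ t ^ (ρ - 1)` (for example `t`, `√t`,
  `t ^ 2 + t`, `2 ^ t`, `t !`, in any combination and with repetitions) and any real sequences `h_i`, for almost all `ξ`,
* `x_i(t) = ξ_i ^ g_i(t) + h_i(t)` with strictly increasing natural numbers `g_i(t)`, for almost all `ξ` with `ξ_i > 1`,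
* `x_i(t) = F_i(t)(ξ_i)` for functions with separated derivatives,

and `t` runs through any set `D'` of natural numbers with at least `N ^ (1 - ε)` members in `(N, 2 N]` for all `ε > 0` and large
`N` (all integers, primes, sums of two squares, ...).

**Theorem.** There is `η > 0` (dependent on `ρ` and the dimensions only), and for every `δ > 0` there is a sequence of
squarefree levels `L(N)` with `log L(N) ≤ (log N) ^ δ`, which does not depend on `D'` and `x`, such that for all these `D'` and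
almost all members `x` of these families, for all large `N`, for all but the proportion `N ^ (-η)` of the `t ∈ D'` between `N`
and `2 N`: `X_c`, `c = ⌊x(t)⌋`, has no point over `F` and its `L(N)`-Selmer set over `F` is empty, for ALL number fields `F`
containing `K` with `[F : ℚ] ≤ D`.

By the theory of descent the projection of the Brauer-Manin set of `X_c` over `F` to the finite places is empty if a
Selmer set is.  So almost all the smooth curves in these sequences satisfy Q1 over all these fields.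

Method: for almost all parameters the coordinates are equidistributed modulo all integers up to a power of `N` with a power
saving, by a second moment over the parameters (`Pool.Agent.N54.ME`); the theorem of the project TQ of helper54 on well
distributed families, with one level for all families.
-/

namespace Pool.Agent.Results.MP_308fa9_nt.MetricSequences

open Filter Topology MeasureTheory NumberField MvPolynomial
open Pool.Agent.Helper94.SM (vect EmptyAt)
open Pool.Agent.Results.MP_308fa9_nt.ThinRandomCurves (Coeffs Multihomogeneous FewPoints Supersingular)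

/-- `D` has at least `N ^ (1 - ε)` members in `(N, 2 N]` for every `ε > 0` and all large `N`. -/
def Many (D : Set ℕ) : Prop :=
  ∀ ε : ℝ, 0 < ε → ∃ N₀ : ℕ, ∀ N : ℕ, N₀ ≤ N →
    (N : ℝ) ^ (1 - ε) ≤ ({t : ℕ | N < t ∧ t ≤ 2 * N ∧ t ∈ D}.ncard : ℝ)

/-- The derivatives of the consecutive functions `F t` are separated on `[u, v]` and their second
derivatives increase. -/
def Spread (ρ u v : ℝ) (F : ℕ → ℝ → ℝ) : Prop :=
  (∀ t, ContDiff ℝ 2 (F t)) ∧ ∃ t₀ : ℕ, ∀ t, t₀ ≤ t → ∀ x ∈ Set.Icc u v,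
    (t : ℝ) ^ (ρ - 1) ≤ deriv (F (t + 1)) x - deriv (F t) x ∧
      deriv (deriv (F t)) x ≤ deriv (deriv (F (t + 1))) x

/-- The property `P` of sequences of integer vectors holds for almost all members of the following
families: (1) the integer parts of `F_i(t) (ξ_i)` for all functions with separated derivatives, (2)
the integer parts of `ξ_i g_i(t) + h_i(t)` for all real sequences `g_i` with
`g_i(t + 1) - g_i(t) ≥ t ^ (ρ - 1)` for large `t` and all real sequences `h_i`, (3) the integer parts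
of `ξ_i ^ g_i(t) + h_i(t)`, `ξ_i > 1`, for all strictly increasing sequences `g_i` of natural numbers
and all real sequences `h_i`. -/
def Metric {ι : Type} [Fintype ι] (ρ : ℝ) (P : (ℕ → ι → ℤ) → Prop) : Prop :=
  (∀ (u v : ι → ℝ) (F : ι → ℕ → ℝ → ℝ), (∀ i, Spread ρ (u i) (v i) (F i)) →
    ∀ᵐ ξ : ι → ℝ, (∀ i, ξ i ∈ Set.Ioc (u i) (v i)) → P (fun t i => ⌊F i t (ξ i)⌋)) ∧
  (∀ g h : ι → ℕ → ℝ, (∀ i, ∀ᶠ t : ℕ in atTop, (t : ℝ) ^ (ρ - 1) ≤ g i (t + 1) - g i t) →
    ∀ᵐ ξ : ι → ℝ, P (fun t i => ⌊ξ i * g i t + h i t⌋)) ∧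
  (∀ (g : ι → ℕ → ℕ) (h : ι → ℕ → ℝ), (∀ i, StrictMono (g i)) →
    ∀ᵐ ξ : ι → ℝ, (∀ i, 1 < ξ i) → P (fun t i => ⌊ξ i ^ g i t + h i t⌋))

lemma blk_eq (D : Set ℕ) (N : ℕ) :
    {t : ℕ | N < t ∧ t ≤ 2 * N ∧ t ∈ D} = (Pool.Agent.Helper94.EN.blk D N : Set ℕ) := by
  ext t
  unfold Pool.Agent.Helper94.EN.blk
  simp only [Set.mem_ofPred_eq, Finset.coe_filter, Finset.mem_Ioc]
  tauto

lemma many_iff {D : Set ℕ} (h : Many D) : Pool.Agent.Helper94.EN.Many D := by
  intro ε hε
  obtain ⟨N₀, hN₀⟩ := h ε hε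
  refine ⟨N₀, fun N hN => ?_⟩
  have := hN₀ N hN
  rw [blk_eq, Set.ncard_coe_finset] at this
  exact this

theorem metric {ι : Type} [Fintype ι] [DecidableEq ι] [Nonempty ι] {D : Set ℕ} (hD : Many D)
    {ρ : ℝ} (hρ : 0 < ρ) (hρ1 : ρ ≤ 1) (P : (ℕ → ι → ℤ) → Prop)
    (hP : ∀ x : ℕ → ι → ℤ, Pool.Agent.Helper94.EN.WD D x
      (Pool.Agent.N54.ME.kap ρ (Fintype.card ι)) → P x) : Metric ρ P :=
  Pool.Agent.Helper94.EN.threeD (many_iff hD) hρ hρ1 P hP

/-- **Almost all the members `X_c` of almost all sequences have empty Selmer sets of one small level over all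
number fields `F` with `[F : ℚ] ≤ D`, unconditionally.** -/
theorem result (K : Type) [Field K] [NumberField K] (n₀ : ℕ)
    (ω : Module.Basis (Fin n₀) ℤ (𝓞 K)) (r : ℕ) (a b : Fin r → ℤ)
    (hE : ∀ i, Supersingular (a i) (b i))
    (κ s D : ℕ) (hD : 1 ≤ D) (hs : s ≤ r + κ) (hr : 2 * D * (r + κ - s) < r)
    (d : Fin s → Fin r → ℕ) (e : Fin s → ℕ) (hd : ∀ j i, D ≤ d j i + 1) (he : ∀ j, D ≤ e j + 1)
    (m q : ℕ) (Φ : Fin q → MvPolynomial ((Fin r × Fin 3) ⊕ Fin (m + 1)) (𝓞 K))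
    (d' : Fin q → Fin r → ℕ) (e' : Fin q → ℕ) (hΦ : ∀ l, Multihomogeneous (Φ l) (d' l) (e' l))
    (B : ℝ) (hB : FewPoints a b Φ κ B D) (ρ : ℝ) (hρ : 0 < ρ) (hρ1 : ρ ≤ 1) :
    ∃ η : ℝ, 0 < η ∧ ∀ δ : ℝ, 0 < δ → ∃ L : ℕ → ℕ,
      (∀ᶠ N : ℕ in atTop, 1 ≤ L N ∧ Squarefree (L N) ∧ Real.log (L N) ≤ Real.log N ^ δ) ∧
      ∀ D' : Set ℕ, Many D' → Metric ρ fun x : ℕ → Coeffs m d e × Fin n₀ → ℤ =>
        ∃ N₀ : ℕ, ∀ N : ℕ, N₀ ≤ N →
          ({t : ℕ | N < t ∧ t ≤ 2 * N ∧ t ∈ D' ∧
            ¬ EmptyAt a b Φ D (L N) (vect (J := Coeffs m d e) ω (x t))}.ncard : ℝ) ≤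
            (N : ℝ) ^ (-η) * ({t : ℕ | N < t ∧ t ≤ 2 * N ∧ t ∈ D'}.ncard : ℝ) := by
  classical
  have hne : Nonempty (Coeffs m d e × Fin n₀) :=
    Pool.Agent.Helper94.SM.coeffs_nonempty ω hD hs hr m d e
  have hr' : 2 * D * ((r + κ - s : ℕ) : ℝ) < r := by exact_mod_cast hr
  obtain ⟨τ, hτ0, hτ⟩ : ∃ τ : ℝ, 0 < τ ∧ 2 * τ + 2 * D * ((r + κ - s : ℕ) : ℝ) < r := by
    refine ⟨(r - 2 * D * ((r + κ - s : ℕ) : ℝ)) / 4, ?_, ?_⟩ <;> linarith
  have hκ' := Pool.Agent.N54.ME.kap_pos hρ (Fintype.card (Coeffs m d e × Fin n₀))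
  refine ⟨min (Pool.Agent.N54.ME.kap ρ (Fintype.card (Coeffs m d e × Fin n₀))) 1 / 2 * τ, by
    have : 0 < min (Pool.Agent.N54.ME.kap ρ (Fintype.card (Coeffs m d e × Fin n₀))) 1 :=
      lt_min hκ' one_pos
    positivity, fun δ hδ => ?_⟩
  obtain ⟨H₀, hH₀, hH⟩ := Pool.Agent.Helper94.SM.engine K ω r a b hE κ s D hD hs hr d e hd he m q Φ d' e'
    hΦ B hB τ hτ δ hδ
  obtain ⟨L, hL1, hL2⟩ := Pool.Agent.Helper94.EN.toNL (ι := Coeffs m d e × Fin n₀) hτ0 (H₀ := H₀)
    (Q := fun H L => 1 ≤ L ∧ Squarefree L ∧ Real.log L ≤ Real.log H ^ δ)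
    (Bad := fun L z => ¬ EmptyAt a b Φ D L (vect (J := Coeffs m d e) ω z)) (fun H hHH => by
      obtain ⟨L, g1, g2⟩ := hH H hHH
      refine ⟨L, g1, fun S x hw => ?_⟩
      convert g2 S x hw) hκ'
  refine ⟨L, ?_, fun D' hD' => metric hD' hρ hρ1 _ fun x hx => ?_⟩
  · filter_upwards [hL1] with N ⟨H, hH1, hH2, hH3, hH4, hH5⟩
    refine ⟨hH3, hH4, hH5.trans ?_⟩
    have h1 : (1 : ℝ) ≤ H := by exact_mod_cast hH1
    have h2 : (H : ℝ) ≤ N := by exact_mod_cast hH2
    exact Real.rpow_le_rpow (Real.log_nonneg h1) (Real.log_le_log (by linarith) h2) hδ.le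
  · obtain ⟨N₀, hN₀⟩ := hL2 (fun N => Pool.Agent.Helper94.EN.blk D' N) x hx
    refine ⟨N₀, fun N hN => ?_⟩
    rw [blk_eq, Set.ncard_coe_finset]
    refine le_trans (Nat.cast_le.2 ?_) (hN₀ N hN)
    have h1 : {t : ℕ | N < t ∧ t ≤ 2 * N ∧ t ∈ D' ∧
        ¬ EmptyAt a b Φ D (L N) (vect (J := Coeffs m d e) ω (x t))} ⊆
        (((Pool.Agent.Helper94.EN.blk D' N).filter fun t =>
          ¬ EmptyAt a b Φ D (L N) (vect (J := Coeffs m d e) ω (x t)) : Finset ℕ) : Set ℕ) := by
      rintro t ⟨h1, h2, h3, h4⟩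
      rw [Finset.mem_coe, Finset.mem_filter]
      refine ⟨?_, h4⟩
      unfold Pool.Agent.Helper94.EN.blk
      rw [Finset.mem_filter, Finset.mem_Ioc]
      exact ⟨⟨h1, h2⟩, h3⟩
    have h2 := Set.ncard_le_ncard h1 (Finset.finite_toSet _)
    rw [Set.ncard_coe_finset] at h2
    refine h2.trans (le_of_eq ?_)
    congr!

end Pool.Agent.Results.MP_308fa9_nt.MetricSequences
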